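import Pool.Agent.H620.Thr.Dens
import Pool.Agent.H620.Inf2.Depth

/-!
# The bounds `l(n) ≤ 3 / log (4/3) log n + c` are not decided by circuits of small depth

Let `l(n)` be the total stopping time of the Collatz function `C`. Of the bounds `l(n) ≤ F(n)` the one of the question,
`F(n) = n`, is a weak one; for `F(n) = K log n` with `K > 3 / log (4/3) = 10.428...` the bound is still true for almost all
the `n` with finite `l(n)`, and for `K < 3 / log (4/3)` it fails for almost all `n`. At the critical constant the bounds are
the most complicated ones: for each real `c` the set of the `n` with `l(n) ≤ 3 / log (4/3) log n + c` is hard in the following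
sense, unconditionally: for each `0 < g < 1 / 2`

(a) its total influence on the `k` lowest binary digits, that is the mean number of the binary digits of `n < 2 ^ k` whose
change moves `n` from the set to its complement or back, is larger than `k ^ g`, for infinitely many `k`;

(b) for infinitely many `k` and all `D ≥ 2` with `(D - 1) (log log k + 1) ≤ g log k`, each circuit of depth at most `D` (with
gates NOT, AND, OR of unbounded fan-in) and size at most `exp (k ^ (g / (D - 1)))` is wrong about the membership in the set
for more than `2 ^ k / k ^ (1 - g)` of the `n < 2 ^ k`.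

Proof. The argument is the one of the file `CriticalThreshold` of the problem MP_a1568a_nt, for the Collatz function: `J`
steps of the shortcut function with `o` odd terms are `J + o` steps of `C`, and lead from `n` to about `(3 ^ o / 2 ^ J) n`; the
bounds for the two numbers agree for `o = J / 2` and no other `o`, since `3 J / 2 = 3 / log (4/3) (J log 2 - (J / 2) log 3)`. The
density of the set is `δ / 2` by the law of `l(n)` (library), `δ > 0` the density of the `n` with finite `l(n)`.
-/

set_option autoImplicit false

namespace Pool.Agent.Results.MP_e43fce_nt.CriticalBound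

open Filter
open DomAC0 (Circuit)

/-- The Collatz function. -/
def C (n : ℕ) : ℕ := if n % 2 = 0 then n / 2 else 3 * n + 1

/-- `l` is the total stopping time `l(n)` of `n`. -/
def IsTotalStoppingTime (n l : ℕ) : Prop := C^[l] n = 1 ∧ ∀ i < l, C^[i] n ≠ 1

/-- The positive integers `n` with finite total stopping time `l(n) ≤ 3 / log (4/3) * log n + c`. -/
def Below (c : ℝ) : Set ℕ :=
  {n | 1 ≤ n ∧ ∃ l : ℕ, IsTotalStoppingTime n l ∧ (l : ℝ) ≤ 3 / Real.log (4 / 3) * Real.log n + c}

/-- The `k` lowest binary digits of `n`. -/
def digits (k n : ℕ) : Fin k → Bool := fun i => n.testBit i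

/-- The total influence of `S` on the integers with `k` binary digits: the mean, for `n < 2 ^ k`, of the number of the
`i < k` such that exactly one of `n` and the integer `n xor 2 ^ i`, obtained by changing the digit `i` of `n`, is in `S`. -/
noncomputable def influence (S : Set ℕ) (k : ℕ) : ℝ :=
  ({p : ℕ × ℕ | p.1 < 2 ^ k ∧ p.2 < k ∧ ¬ (p.1 ∈ S ↔ p.1 ^^^ 2 ^ p.2 ∈ S)}.ncard : ℝ) / 2 ^ k

/-- The number of the `n < 2 ^ k` for which the circuit `Γ` is wrong about the membership in `S`. -/
noncomputable def errors (S : Set ℕ) {k : ℕ} (Γ : Circuit (Fin k)) : ℕ :=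
  {n : ℕ | n < 2 ^ k ∧ ¬ (Γ.eval (digits k n) = true ↔ n ∈ S)}.ncard

/-- `S` is hard: for each `0 < g < 1 / 2`, the total influence of `S` is larger than `k ^ g` for infinitely many `k`, and, for
infinitely many `k` and all `D ≥ 2` with `(D - 1) (log log k + 1) ≤ g log k`, each circuit of depth at most `D` and size at
most `exp (k ^ (g / (D - 1)))` is wrong about the membership in `S` for more than `2 ^ k / k ^ (1 - g)` of the `n < 2 ^ k`. -/
def Hard (S : Set ℕ) : Prop := ∀ g : ℝ, 0 < g → g < 1 / 2 →
  (∃ᶠ k : ℕ in atTop, (k : ℝ) ^ g < influence S k) ∧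
  ∃ᶠ k : ℕ in atTop, ∀ D : ℕ, 2 ≤ D → ((D : ℝ) - 1) * (Real.log (Real.log k) + 1) ≤ g * Real.log k →
    ∀ Γ : Circuit (Fin k), Γ.depth ≤ D → (Γ.size : ℝ) ≤ Real.exp ((k : ℝ) ^ (g / ((D : ℝ) - 1))) →
      (2 : ℝ) ^ k / (k : ℝ) ^ (1 - g) < errors S Γ

open Pool.Agent.H620

theorem Hard.of_large {S : Set ℕ} (h : Inf2.Large (fun n => n ∈ S)) : Hard S :=
  fun _ hc0 hc => ⟨Inf2.large_infl h hc, Inf2.large_depth h hc0 hc⟩

theorem mem_iff (c : ℝ) {n : ℕ} (hn : 1 ≤ n) :
    n ∈ Below c ↔ Thr.RC (3 / Real.log (4 / 3) * Real.log n + c) (n : ℤ) := by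
  unfold Thr.RC
  rw [Int.toNat_natCast]
  constructor
  · rintro ⟨_, t, ht, h⟩
    exact ⟨t, h, ht.1⟩
  · rintro ⟨j, h1, h2⟩
    obtain ⟨k, hk, g⟩ := Thr.first_C h2
    have : (k : ℝ) ≤ j := by exact_mod_cast hk
    exact ⟨hn, k, g, by linarith⟩

/-- **The critical bounds.** For every real `c` the set of the positive integers `n` with total stopping time
`l(n) ≤ 3 / log (4/3) log n + c` is hard: large total influence, and not decided by circuits of small depth, not even
on average. -/
theorem result : ∀ c : ℝ, Hard (Below c) := fun c =>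
  Hard.of_large (Inf2.Large.congr (fun _ hn => mem_iff c hn) (Thr.large_C c))

end Pool.Agent.Results.MP_e43fce_nt.CriticalBound
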