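import Pool.Agent.H623.TP.S3

set_option autoImplicit false

/-!
# The total stopping time given the number of odd terms: large deviations

For `2 ^ k ≤ X` let `E(k, i; X)` be the set of the `n ≤ X` with exactly `i` odd terms among the first `k` terms of
the accelerated trajectory, so that `T^k(n)` is about `3 ^ i n / 2 ^ k`. Only the slopes `i / k` close to `1 / 2` are
typical; for the other slopes these sets are thin, of size down to `X ^ 0.8`. It is shown that uniformly for all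
slopes `6 / 25 ≤ i / k ≤ 8 / 15` the exceptions to the inequality `l(n) ≤ n` have in `E(k, i; X)` the same frequency
`1 - δ` as among all integers, and that the total stopping time obeys on `E(k, i; X)` a normal law with the centre
`k + i + (3 / log (4/3)) log (3 ^ i n / 2 ^ k)`, jointly with its residue class and that of the number of odd terms.
-/

namespace Pool.Agent.Results.MP_e43fce_nt.GivenOddTerms

open Filter Topology

/-- the Collatz function -/
def C (n : ℕ) : ℕ := if n % 2 = 0 then n / 2 else 3 * n + 1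

/-- the accelerated Collatz function -/
def T (n : ℕ) : ℕ := if n % 2 = 0 then n / 2 else (3 * n + 1) / 2

/-- `l` is the total stopping time `l(n)` of `n` -/
def IsTotalStoppingTime (n l : ℕ) : Prop := C^[l] n = 1 ∧ ∀ j < l, C^[j] n ≠ 1

/-- `l(n) > n`, including `l(n) = ∞` -/
def Exception (n : ℕ) : Prop := ∀ l : ℕ, IsTotalStoppingTime n l → n < l

/-- the number of odd terms among `n, C n, ..., C^(k-1) n` -/
def odds (k n : ℕ) : ℕ := ((Finset.range k).filter fun j => C^[j] n % 2 = 1).card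

/-- the number of odd terms among `n, T n, ..., T^(k-1) n` -/
def oddsT (k n : ℕ) : ℕ := ((Finset.range k).filter fun j => T^[j] n % 2 = 1).card

/-- the `1 ≤ n ≤ X` with exactly `i` odd terms among `n, T n, ..., T^(k-1) n` -/
def E (k i X : ℕ) : Set ℕ := {n : ℕ | 1 ≤ n ∧ n ≤ X ∧ oddsT k n = i}

/-- `2 ^ k ≤ X` and `6 / 25 ≤ i / k ≤ 8 / 15` -/
def Admissible (k i X : ℕ) : Prop := 2 ^ k ≤ X ∧ 6 * k ≤ 25 * i ∧ 15 * i ≤ 8 * k

/-- the proportion of the `n` with `Q k i n` in the set `E k i X` tends to `c` as `k` tends to infinity,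
uniformly for all admissible `i` and `X` -/
def Frequency (Q : ℕ → ℕ → ℕ → Prop) (c : ℝ) : Prop :=
  ∀ ε : ℝ, 0 < ε → ∃ K : ℕ, ∀ k i X : ℕ, K ≤ k → Admissible k i X →
    |({n : ℕ | n ∈ E k i X ∧ Q k i n}.ncard : ℝ) - c * (E k i X).ncard| ≤ ε * (E k i X).ncard

/-- `k + i + 3 / log (4/3) * L + x * log 6 * √(2 L / (log (4/3))^3)` with `L = log (3 ^ i n / 2 ^ k)` -/
noncomputable def bound (x : ℝ) (k i n : ℕ) : ℝ :=
  k + i + 3 / Real.log (4 / 3) * Real.log (3 ^ i * n / 2 ^ k)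
    + x * (Real.log 6 * Real.sqrt (2 * Real.log (3 ^ i * n / 2 ^ k) / Real.log (4 / 3) ^ 3))

/-- The distribution function of the standard normal law. -/
noncomputable def Phi (x : ℝ) : ℝ :=
  ProbabilityTheory.cdf (ProbabilityTheory.gaussianReal 0 1) x

/-! ### proofs -/

theorem odds_eq (k : ℕ) : ∀ n : ℕ, oddsT k n = Pool.Agent.H623.TS.odds k n := by
  induction k with
  | zero => intro n; rfl
  | succ k ih =>
    intro n
    rw [Pool.Agent.H623.TS.odds]
    have h1 : oddsT (k + 1) n = n % 2 + oddsT k (T n) := by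
      unfold oddsT
      rw [Finset.card_filter, Finset.card_filter, Finset.sum_range_succ', add_comm]
      congr 1
      have : T^[0] n = n := rfl
      rw [this]
      rcases Nat.mod_two_eq_zero_or_one n with h | h <;> simp [h]
    rw [h1, ih]
    rfl

theorem odds_zero (k : ℕ) : Pool.Agent.H623.TS.odds k 0 = 0 := by
  induction k with
  | zero => rfl
  | succ k ih =>
    rw [Pool.Agent.H623.TS.odds]
    have : Pool.Agent.H623.TS.T 0 = 0 := rfl
    rw [this, ih]

theorem E_eq {k i : ℕ} (hi : 1 ≤ i) (X : ℕ) : E k i X = (Pool.Agent.H623.TP.E k i (X + 1) : Set ℕ) := by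
  ext n
  rw [Finset.mem_coe, Pool.Agent.H623.TP.mem_E]
  unfold E
  rw [Set.mem_setOf_eq, odds_eq]
  constructor
  · rintro ⟨h1, h2, h3⟩
    exact ⟨by omega, h3⟩
  · rintro ⟨h1, h2⟩
    refine ⟨?_, by omega, h2⟩
    rcases Nat.eq_zero_or_pos n with h | h
    · subst h
      rw [odds_zero] at h2
      omega
    · exact h

theorem freq_of {Q : ℕ → ℕ → ℕ → Prop} {c : ℝ} (h : Pool.Agent.H623.TP.FQ Q c) : Frequency Q c := by
  classical
  intro ε hε
  obtain ⟨K, hK⟩ := h ε hε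
  refine ⟨K + 5, fun k i X hk hadm => ?_⟩
  obtain ⟨h1, h2, h3⟩ := hadm
  have h4 := hK k i (X + 1) (by omega) h2 h3 (by omega)
    ((Pool.Agent.H623.TP.E k i (X + 1)).filter fun n => Q k i n) (fun n => by rw [Finset.mem_filter])
  have hE := E_eq (k := k) (i := i) (by omega) X
  have e1 : (E k i X).ncard = (Pool.Agent.H623.TP.E k i (X + 1)).card := by
    rw [hE, Set.ncard_coe_finset]
  have e2 : {n : ℕ | n ∈ E k i X ∧ Q k i n}.ncard =
      ((Pool.Agent.H623.TP.E k i (X + 1)).filter fun n => Q k i n).card := by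
    rw [← Set.ncard_coe_finset]
    congr 1
    ext n
    rw [Finset.mem_coe, Finset.mem_filter, Set.mem_setOf_eq, hE, Finset.mem_coe]
  rw [e1, e2]
  exact h4

theorem freq_congr {Q Q' : ℕ → ℕ → ℕ → Prop} {c : ℝ} (h : Frequency Q c)
    (he : ∀ k i n, 1 ≤ n → (Q k i n ↔ Q' k i n)) : Frequency Q' c := by
  intro ε hε
  obtain ⟨K, hK⟩ := h ε hε
  refine ⟨K, fun k i X hk hadm => ?_⟩
  have h1 := hK k i X hk hadm
  have e : {n : ℕ | n ∈ E k i X ∧ Q' k i n} = {n : ℕ | n ∈ E k i X ∧ Q k i n} := by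
    ext n
    constructor
    · rintro ⟨h2, h3⟩
      exact ⟨h2, (he k i n h2.1).2 h3⟩
    · rintro ⟨h2, h3⟩
      exact ⟨h2, (he k i n h2.1).1 h3⟩
  rw [e]
  exact h1

theorem card_E_two {k i : ℕ} (hi : 1 ≤ i) (hik : i ≤ k) : (E k i (2 ^ k)).ncard = k.choose i := by
  rw [E_eq hi, Set.ncard_coe_finset, ← Pool.Agent.H623.TP.card_E0 hik]
  congr 1
  ext n
  rw [Pool.Agent.H623.TP.mem_E, Pool.Agent.H623.TP.mem_E0]
  constructor
  · rintro ⟨h1, h2⟩
    refine ⟨?_, h2⟩
    rcases Nat.lt_or_ge n (2 ^ k) with h | h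
    · exact h
    · have h3 : n = 0 + 2 ^ k * 1 := by omega
      have h4 := (Pool.Agent.H623.TP.T_iter_add k 0 1).2
      rw [← h3, odds_zero, h2] at h4
      omega
  · rintro ⟨h1, h2⟩
    exact ⟨by omega, h2⟩

theorem choose_small {k i : ℕ} (hik : 4 * i ≤ k) : (k.choose i : ℝ) ≤ ((2 : ℝ) ^ k) ^ (0.82 : ℝ) := by
  have h1 : k.choose i * 3 ^ (k - i) ≤ 4 ^ k := by
    have h2 := add_pow (1 : ℕ) 3 k
    simp only [Nat.cast_id] at h2
    have h3 : (1 : ℕ) ^ i * 3 ^ (k - i) * k.choose i ≤ ∑ m ∈ Finset.range (k + 1), 1 ^ m * 3 ^ (k - m) * k.choose m :=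
      Finset.single_le_sum (f := fun m => 1 ^ m * 3 ^ (k - m) * k.choose m) (fun _ _ => Nat.zero_le _)
        (Finset.mem_range.2 (by omega))
    rw [← h2, one_pow, one_mul] at h3
    norm_num at h3
    rw [mul_comm]
    exact h3
  have h2 : k.choose i ^ 4 * 27 ^ k ≤ 256 ^ k := by
    have h3 : (27 : ℕ) ^ k ≤ 3 ^ (4 * (k - i)) := by
      calc (27 : ℕ) ^ k = 3 ^ (3 * k) := by rw [pow_mul]; norm_num
        _ ≤ 3 ^ (4 * (k - i)) := Nat.pow_le_pow_right (by norm_num) (by omega)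
    calc k.choose i ^ 4 * 27 ^ k ≤ k.choose i ^ 4 * 3 ^ (4 * (k - i)) := Nat.mul_le_mul_left _ h3
      _ = (k.choose i * 3 ^ (k - i)) ^ 4 := by rw [mul_pow, ← pow_mul, mul_comm 4]
      _ ≤ (4 ^ k) ^ 4 := Nat.pow_le_pow_left h1 4
      _ = 256 ^ k := by rw [← pow_mul, mul_comm, pow_mul]; norm_num
  have h3 : k.choose i ^ 100 ≤ (2 ^ k) ^ 82 := by
    have h4 : k.choose i ^ 100 * (27 ^ k) ^ 25 ≤ (2 ^ k) ^ 82 * (27 ^ k) ^ 25 := by
      calc k.choose i ^ 100 * (27 ^ k) ^ 25 = (k.choose i ^ 4 * 27 ^ k) ^ 25 := by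
            rw [mul_pow, ← pow_mul (k.choose i) 4 25]
        _ ≤ (256 ^ k) ^ 25 := Nat.pow_le_pow_left h2 25
        _ = (256 ^ 25) ^ k := by rw [← pow_mul, ← pow_mul, mul_comm]
        _ ≤ (2 ^ 82 * 27 ^ 25) ^ k := Nat.pow_le_pow_left (by norm_num) k
        _ = (2 ^ k) ^ 82 * (27 ^ k) ^ 25 := by
          rw [mul_pow, ← pow_mul, ← pow_mul, ← pow_mul, ← pow_mul, mul_comm 82, mul_comm 25]
    exact Nat.le_of_mul_le_mul_right h4 (by positivity)
  have h4 : ((k.choose i : ℝ)) ^ 100 ≤ ((2 : ℝ) ^ k) ^ 82 := by exact_mod_cast h3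
  have h5 : (0 : ℝ) ≤ (k.choose i : ℝ) := Nat.cast_nonneg _
  have h6 : (0 : ℝ) < (2 : ℝ) ^ k := by positivity
  have h7 : (((2 : ℝ) ^ k) ^ (0.82 : ℝ)) ^ 100 = ((2 : ℝ) ^ k) ^ 82 := by
    rw [← Real.rpow_natCast, ← Real.rpow_mul h6.le, ← Real.rpow_natCast ((2 : ℝ) ^ k) 82]
    norm_num
  rw [← h7] at h4
  exact le_of_pow_le_pow_left₀ (by norm_num) (by positivity) h4

/-- **Theorem.** Let `δ` be the natural density of the integers `n` with finite `l(n)`, so `0 < δ ≤ 1`, and `δ = 1` if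
and only if every `l(n)` is finite.

(1) Among the `n ≤ X` with exactly `i` odd terms among the first `k` terms of the accelerated trajectory the
proportion of the exceptions `l(n) > n` tends to `1 - δ`, and that of the `n` with finite `l(n)` tends to `δ`, as `k`
tends to infinity, uniformly for `6 / 25 ≤ i / k ≤ 8 / 15` and `X ≥ 2 ^ k`.

(2) So does, for all `m ≥ 1`, `a`, `b` and every real `x`, the proportion of the `n` with `l(n) ≤ bound x k i n`,
`l(n) ≡ a` and number of odd terms before reaching `1` `≡ b` modulo `m`; the limit is `δ Φ(x) / m ^ 2`.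

(3) Every `l(n)` is finite if and only if the exceptions have proportion `o(1)` along some sequence of these sets
with `k → ∞`.

(4) The set with `X = 2 ^ k` has `binomial(k, i)` elements, which is at most `X ^ 0.82` if `i ≤ k / 4`. -/
theorem result : ∃ δ : ℝ, 0 < δ ∧ δ ≤ 1 ∧
    (δ = 1 ↔ ∀ n : ℕ, 1 ≤ n → ∃ l, IsTotalStoppingTime n l) ∧
    Tendsto (fun N : ℕ => ({n : ℕ | 1 ≤ n ∧ n ≤ N ∧ ∃ l, IsTotalStoppingTime n l}.ncard : ℝ) / N) atTop (𝓝 δ) ∧
    -- (1) the exceptions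
    Frequency (fun _ _ n => Exception n) (1 - δ) ∧
    Frequency (fun _ _ n => ∃ l, IsTotalStoppingTime n l) δ ∧
    -- (2) the normal law
    (∀ (m : ℕ) (a b : ℤ) (x : ℝ), 1 ≤ m → Frequency (fun k i n => ∃ l : ℕ, (l : ℝ) ≤ bound x k i n ∧
      IsTotalStoppingTime n l ∧ (l : ℤ) ≡ a [ZMOD m] ∧ (odds l n : ℤ) ≡ b [ZMOD m]) (δ * Phi x / m ^ 2)) ∧
    -- (3) a criterion
    ((∀ n : ℕ, 1 ≤ n → ∃ l, IsTotalStoppingTime n l) ↔ ∀ ε : ℝ, 0 < ε → ∀ K : ℕ, ∃ k i X : ℕ, K ≤ k ∧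
      Admissible k i X ∧ ({n : ℕ | n ∈ E k i X ∧ Exception n}.ncard : ℝ) ≤ ε * (E k i X).ncard) ∧
    -- (4) the sizes
    (∀ k i : ℕ, 1 ≤ i → i ≤ k → (E k i (2 ^ k)).ncard = k.choose i) ∧
    (∀ k i : ℕ, 4 * i ≤ k → (k.choose i : ℝ) ≤ ((2 : ℝ) ^ k) ^ (0.82 : ℝ)) := by
  obtain ⟨δ, h0, h1, hfull, h2, h3, h4, h5, h6, -⟩ :=
    Pool.Agent.Results.MP_e43fce_nt.AllResidueClasses.result
  have hfull' : δ = 1 ↔ ∀ n : ℕ, 1 ≤ n → ∃ l, IsTotalStoppingTime n l := hfull
  have hexc : Frequency (fun _ _ n => Exception n) (1 - δ) := freq_of (Pool.Agent.H623.TP.exc_law h0 h1 h4 h5)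
  have hpos : ∀ k i X : ℕ, 5 ≤ k → Admissible k i X → (0 : ℝ) < (E k i X).ncard := by
    rintro k i X hk ⟨g1, g2, g3⟩
    have g4 := Pool.Agent.H623.TP.card_E_ge (k := k) (i := i) (by omega) (X + 1)
    have g5 : 1 ≤ (X + 1) / 2 ^ k := (Nat.one_le_div_iff (by positivity)).2 (by omega)
    have g6 : 0 < k.choose i := Nat.choose_pos (by omega)
    rw [E_eq (by omega), Set.ncard_coe_finset]
    exact_mod_cast lt_of_lt_of_le (Nat.mul_pos g5 g6) g4
  refine ⟨δ, h0, h1, hfull, ?_, hexc, freq_of (Pool.Agent.H623.TP.fin_law h0 h1 h4), ?_, ?_,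
    fun k i h7 h8 => card_E_two h7 h8, fun k i h7 => choose_small h7⟩
  · have h7 := Pool.Agent.H623.TP.CF_of h4 1 one_pos
    rw [Metric.tendsto_atTop]
    intro ε hε
    obtain ⟨N₀, hN₀⟩ := h7 (ε / 2) (by positivity)
    refine ⟨N₀ + 1, fun N hN => ?_⟩
    have h8 := hN₀ N (by omega) 0
    have hN0 : (0 : ℝ) < N := by exact_mod_cast (by omega : 0 < N)
    have e : Pool.Agent.Results.MP_e43fce_nt.AllResidueClasses.count
        (fun n => ∃ l, Pool.Agent.Results.MP_e43fce_nt.AllResidueClasses.IsTotalStoppingTime n l) N 1 0 =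
        ({n : ℕ | 1 ≤ n ∧ n ≤ N ∧ ∃ l, IsTotalStoppingTime n l}.ncard : ℝ) := by
      unfold Pool.Agent.Results.MP_e43fce_nt.AllResidueClasses.count
      congr 2
      ext n
      constructor
      · rintro ⟨a1, a2, -, a4⟩
        exact ⟨a1, a2, a4⟩
      · rintro ⟨a1, a2, a4⟩
        refine ⟨a1, a2, ?_, a4⟩
        rw [Nat.cast_one]
        exact Int.modEq_one
    rw [e] at h8
    rw [Real.dist_eq]
    have e2 : ({n : ℕ | 1 ≤ n ∧ n ≤ N ∧ ∃ l, IsTotalStoppingTime n l}.ncard : ℝ) / N - δ =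
        (({n : ℕ | 1 ≤ n ∧ n ≤ N ∧ ∃ l, IsTotalStoppingTime n l}.ncard : ℝ) - δ * N / (1 : ℕ)) / N := by
      field_simp
      push_cast
      ring
    rw [e2, abs_div, abs_of_pos hN0, div_lt_iff₀ hN0]
    nlinarith
  · intro m a b x hm
    refine freq_congr (freq_of (Pool.Agent.H623.TP.normal_law h0 h1 h6 m a b x hm)) fun k i n hn => ?_
    have e : (k : ℝ) + i + Pool.Agent.H623.TP.BB x (Pool.Agent.H623.TP.LL k i n) = bound x k i n := by
      have hn0 : (0 : ℝ) < n := by exact_mod_cast hn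
      have e1 : Real.log (3 ^ i * n / 2 ^ k) = Pool.Agent.H623.TP.LL k i n := by
        unfold Pool.Agent.H623.TP.LL
        rw [Real.log_div (by positivity) (by positivity), Real.log_mul (by positivity) hn0.ne', Real.log_pow,
          Real.log_pow]
        ring
      unfold bound Pool.Agent.H623.TP.BB
      rw [e1]
      ring
    unfold Pool.Agent.H623.TP.Q3
    rw [e]
    exact Iff.rfl
  · rw [← hfull']
    constructor
    · intro h7 ε hε K
      obtain ⟨K₁, hK₁⟩ := hexc ε hε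
      refine ⟨4 * (K + K₁ + 2), K + K₁ + 2, 2 ^ (4 * (K + K₁ + 2)), by omega, ⟨le_rfl, by omega, by omega⟩, ?_⟩
      have h8 := hK₁ (4 * (K + K₁ + 2)) (K + K₁ + 2) (2 ^ (4 * (K + K₁ + 2))) (by omega)
        ⟨le_rfl, by omega, by omega⟩
      rw [h7, sub_self, zero_mul, sub_zero] at h8
      exact (le_abs_self _).trans h8
    · intro h7
      by_contra hne
      have hlt : 0 < 1 - δ := by
        rcases lt_or_eq_of_le h1 with h | h
        · linarith
        · exact absurd h hne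
      obtain ⟨K₁, hK₁⟩ := hexc ((1 - δ) / 4) (by linarith)
      obtain ⟨k, i, X, hk, hadm, h8⟩ := h7 ((1 - δ) / 4) (by linarith) (K₁ + 5)
      have h9 := (abs_le.1 (hK₁ k i X (by omega) hadm)).1
      have h10 := hpos k i X (by omega) hadm
      nlinarith

end Pool.Agent.Results.MP_e43fce_nt.GivenOddTerms
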