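import Pool.Agent.H620.Pre.Dich

/-!
# Predecessor sets of the Collatz map and circuits of small depth: a dichotomy

Let `C` be the Collatz map `n / 2`, `3 n + 1`, considered on all integers. For a finite set `F` of integers and `s = 1` or
`s = -1` let `Meets s F` be the set of the positive integers `n` such that some term of the trajectory of `s n` is in `F`; for
`F = {a}` these are the predecessors of `a` (up to the sign).

Theorem. (1) For every finite set `F` and both signs `s`, the set `Meets s F` is either in (nonuniform) `AC0`, and this is the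
case only for the two obvious reasons: each element of `F` of the sign `s` is divisible by `3` (then the predecessors are the
numbers `2 ^ j f`), or all but finitely many of the integers prime to `3` are in `Meets s F` (then also the complement consists
of finitely many sequences `2 ^ j m`). Or it is hard: for all `0 < γ < 1 / 2`,

(a) its total influence on the `k` lowest binary digits, that is the mean number of the binary digits of `n < 2 ^ k` whose
change moves `n` from the set to the complement or back, is larger than `k ^ γ` for infinitely many `k`;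

(b) for infinitely many `k` and all `D ≥ 2` with `(D - 1) (log log k + 1) ≤ γ log k`, each circuit of depth at most `D` (with gates
NOT, AND, OR of unbounded fan-in) and size at most `exp (k ^ (γ / (D - 1)))` is wrong about the membership in the set for
more than `2 ^ k / k ^ (1 - γ)` of the `n < 2 ^ k`.

(2) For a single integer `a ≠ 0` the predecessor set of `a` is in `AC0` if and only if `3` divides `a`, or `a` is `1`, `2`, `4`, `8` or
`16` and the Collatz conjecture is true. So for all other `a`, positive or negative, it is hard unconditionally, and the set of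
the integers with finite total stopping time is in `AC0` if and only if the Collatz conjecture is true.

Proof. The sets are invariant above the elements of `F`. The number of `n` whose trajectory meets `F` has a natural density,
which is positive if `F` has an element prime to `3` (earlier theorem of the library). So if there is an integer `b` prime to `3`
such that neither `b` reaches `F` nor an element of `F` reaches `b`, then the density of `Meets s F` is neither `0` nor `1`, as
the predecessors of `b` are in the complement, and the lower bound for the total influence of invariant families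
(`influence_fam`) applies. If there is no such `b`, let `b` be prime to `3` and not in `Meets s F`. If no `2 ^ i b` were in `F`,
then each `2 ^ i b` would be a term of a trajectory of some `f` in `F`, so one trajectory would contain all the `2 ^ i b`, which is
impossible: it would return to `b`, so it would be bounded. Hence there are only finitely many such `b`.
-/

set_option autoImplicit false

namespace Pool.Agent.Results.MP_e43fce_nt.PredecessorSets

open Filter
open DomAC0 (Circuit)

/-- The Collatz function, on the integers. -/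
def C (x : ℤ) : ℤ := if x % 2 = 0 then x / 2 else 3 * x + 1

/-- The set of the positive integers `n` such that the trajectory of `s n` contains an element of `F`, for `s = 1` or
`s = -1`. -/
def Meets (s : ℤ) (F : Finset ℤ) : Set ℕ := {n | 1 ≤ n ∧ ∃ k : ℕ, C^[k] (s * (n : ℤ)) ∈ F}

/-- Either every element of `F` of the sign `s` is divisible by `3`, or all but finitely many of the positive integers prime
to `3` are in `Meets s F`. -/
def Obvious (s : ℤ) (F : Finset ℤ) : Prop :=
  (∀ f ∈ F, 0 < s * f → (3 : ℤ) ∣ f) ∨ {n : ℕ | 1 ≤ n ∧ ¬ 3 ∣ n ∧ n ∉ Meets s F}.Finite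

/-- The Collatz conjecture. -/
def Collatz : Prop := ∀ n : ℤ, 1 ≤ n → ∃ k : ℕ, C^[k] n = 1

/-- The `k` lowest binary digits of `n`. -/
def digits (k n : ℕ) : Fin k → Bool := fun i => n.testBit i

/-- The total influence of `S` on the integers with `k` binary digits: the mean, for `n < 2 ^ k`, of the number of the
`i < k` such that exactly one of `n` and the integer `n xor 2 ^ i`, obtained by changing the digit `i` of `n`, is in `S`. -/
noncomputable def influence (S : Set ℕ) (k : ℕ) : ℝ :=
  ({p : ℕ × ℕ | p.1 < 2 ^ k ∧ p.2 < k ∧ ¬ (p.1 ∈ S ↔ p.1 ^^^ 2 ^ p.2 ∈ S)}.ncard : ℝ) / 2 ^ k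

/-- The number of the `n < 2 ^ k` for which the circuit `Γ` is wrong about the membership in `S`. -/
noncomputable def errors (S : Set ℕ) {k : ℕ} (Γ : Circuit (Fin k)) : ℕ :=
  {n : ℕ | n < 2 ^ k ∧ ¬ (Γ.eval (digits k n) = true ↔ n ∈ S)}.ncard

/-- `S` is hard: for each `0 < c < 1 / 2`, the total influence of `S` is larger than `k ^ c` for infinitely many `k`, and, for
infinitely many `k` and all `D ≥ 2` with `(D - 1) (log log k + 1) ≤ c log k`, each circuit of depth at most `D` and size at
most `exp (k ^ (c / (D - 1)))` is wrong about the membership in `S` for more than `2 ^ k / k ^ (1 - c)` of the `n < 2 ^ k`. -/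
def Hard (S : Set ℕ) : Prop := ∀ c : ℝ, 0 < c → c < 1 / 2 →
  (∃ᶠ k : ℕ in atTop, (k : ℝ) ^ c < influence S k) ∧
  ∃ᶠ k : ℕ in atTop, ∀ D : ℕ, 2 ≤ D → ((D : ℝ) - 1) * (Real.log (Real.log k) + 1) ≤ c * Real.log k →
    ∀ Γ : Circuit (Fin k), Γ.depth ≤ D → (Γ.size : ℝ) ≤ Real.exp ((k : ℝ) ^ (c / ((D : ℝ) - 1))) →
      (2 : ℝ) ^ k / (k : ℝ) ^ (1 - c) < errors S Γ

/-- `S` is in `AC0`: the membership of the integers `1 ≤ n < 2 ^ k` is decided by circuits of constant depth and polynomial
size. -/
def AC0 (S : Set ℕ) : Prop :=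
  ∃ D A : ℕ, ∀ k : ℕ, 1 ≤ k → ∃ Γ : Circuit (Fin k), Γ.depth ≤ D ∧ Γ.size ≤ k ^ A ∧
    ∀ n, 1 ≤ n → n < 2 ^ k → (Γ.eval (digits k n) = true ↔ n ∈ S)

/-- For all large `k`, the membership of the integers `1 ≤ n < 2 ^ k` in `S` is decided by circuits of polynomial size and
of depth at most `a log k / log log k`, where `a < 1 / 2`. -/
def Poly (S : Set ℕ) : Prop :=
  ∃ (A : ℕ) (a : ℝ), a < 1 / 2 ∧ ∀ᶠ k : ℕ in atTop, ∃ Γ : Circuit (Fin k), Γ.size ≤ k ^ A ∧
    (Γ.depth : ℝ) ≤ a * (Real.log k / Real.log (Real.log k)) ∧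
    ∀ n, 1 ≤ n → n < 2 ^ k → (Γ.eval (digits k n) = true ↔ n ∈ S)

/-- For some `0 < c < 1 / 2` and all large `k` there are a `D ≥ 2` with `(D - 1) (log log k + 1) ≤ c log k` and a circuit of
depth at most `D` and size at most `exp (k ^ (c / (D - 1)))` that is wrong about the membership in `S` for at most
`2 ^ k / k ^ (1 - c)` of the `n < 2 ^ k`. -/
def Approx (S : Set ℕ) : Prop :=
  ∃ c : ℝ, 0 < c ∧ c < 1 / 2 ∧ ∀ᶠ k : ℕ in atTop, ∃ D : ℕ, 2 ≤ D ∧
    ((D : ℝ) - 1) * (Real.log (Real.log k) + 1) ≤ c * Real.log k ∧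
    ∃ Γ : Circuit (Fin k), Γ.depth ≤ D ∧ (Γ.size : ℝ) ≤ Real.exp ((k : ℝ) ^ (c / ((D : ℝ) - 1))) ∧
      (errors S Γ : ℝ) ≤ (2 : ℝ) ^ k / (k : ℝ) ^ (1 - c)

open Pool.Agent.H620 Pool.Agent.H620.Pre

theorem C_eq : C = Cz := rfl

theorem meets_eq (s : ℤ) (F : Finset ℤ) : Meets s F = ME s F := by
  ext n
  unfold Meets ME Hits
  rw [C_eq]
  simp only [Set.mem_ofPred_eq]
  refine and_congr_right fun _ => ⟨?_, ?_⟩
  · rintro ⟨k, hk⟩
    exact ⟨_, hk, k, rfl⟩
  · rintro ⟨f, hf, k, hk⟩
    exact ⟨k, by rw [hk]; exact hf⟩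

theorem hard_of {S : Set ℕ} (h : Inf2.Large (fun n => n ∈ S)) : Hard S :=
  fun _ h0 h1 => ⟨Inf2.large_infl h h1, Inf2.large_depth h h0 h1⟩

theorem obvious_iff (s : ℤ) (F : Finset ℤ) : Obvious s F ↔
    ((∀ f ∈ F, 0 < s * f → (3 : ℤ) ∣ f) ∨ ∃ X : ℕ, ∀ n : ℕ, 1 ≤ n → ¬ 3 ∣ n → X < n → n ∈ ME s F) := by
  unfold Obvious
  rw [meets_eq]
  refine or_congr_right ⟨?_, ?_⟩
  · intro h
    obtain ⟨X, hX⟩ := h.bddAbove
    refine ⟨X, fun n h1 h2 h3 => ?_⟩
    by_contra hcon
    exact absurd (hX ⟨h1, h2, hcon⟩) (not_le.2 h3)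
  · rintro ⟨X, hX⟩
    refine (Set.finite_Iic X).subset ?_
    rintro n ⟨h1, h2, h3⟩
    by_contra hcon
    exact h3 (hX n h1 h2 (not_le.1 hcon))

theorem obvious_ac0 {s : ℤ} (hs : s = 1 ∨ s = -1) {F : Finset ℤ} (h : Obvious s F) : Inf2.AC0 (ME s F) := by
  rcases (obvious_iff s F).1 h with h | ⟨X, h⟩
  · exact ME_ac0_A hs h
  · exact ME_ac0_B hs h

theorem not_obvious {s : ℤ} (hs : s = 1 ∨ s = -1) {F : Finset ℤ} (h : ¬ Obvious s F) :
    Inf2.Large (fun n => n ∈ ME s F) := by
  rcases dichotomy hs F with g | g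
  · exact absurd ((obvious_iff s F).2 g) h
  · exact g

/-- a single integer `a` is obvious only if ... -/
theorem single {a b : ℤ} {s : ℤ} (hs : s = 1 ∨ s = -1) (ha : 0 < s * a) (ha3 : ¬ (3 : ℤ) ∣ a) (hb : 0 < s * b)
    (hb3 : ¬ (3 : ℤ) ∣ b) (h1 : ¬ Hits b a) (h2 : ¬ Hits a b) : ¬ Obvious s {a} := by
  intro h
  have h3 := obvious_ac0 hs h
  have h4 : Inf2.Large (fun n => n ∈ ME s {a}) := large_ME hs ⟨a, Finset.mem_singleton_self a, ha, ha3⟩ hb hb3
    (by simpa using h1) (by simpa using h2)
  exact h4.not_AC0 h3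

theorem cl16 : ∀ x ∈ ({1, 2, 4, 8, 16} : Set ℤ), Cz x ∈ ({1, 2, 4, 8, 16} : Set ℤ) := by
  rintro x (rfl | rfl | rfl | rfl | rfl) <;> decide

theorem cl4 : ∀ x ∈ ({1, 2, 4} : Set ℤ), Cz x ∈ ({1, 2, 4} : Set ℤ) := by
  rintro x (rfl | rfl | rfl) <;> decide

theorem cl5 : ∀ x ∈ ({5, 1, 2, 4, 8, 16} : Set ℤ), Cz x ∈ ({5, 1, 2, 4, 8, 16} : Set ℤ) := by
  rintro x (rfl | rfl | rfl | rfl | rfl | rfl) <;> decide

theorem cl32 : ∀ x ∈ ({32, 1, 2, 4, 8, 16} : Set ℤ), Cz x ∈ ({32, 1, 2, 4, 8, 16} : Set ℤ) := by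
  rintro x (rfl | rfl | rfl | rfl | rfl | rfl) <;> decide

theorem clm1 : ∀ x ∈ ({-1, -2} : Set ℤ), Cz x ∈ ({-1, -2} : Set ℤ) := by
  rintro x (rfl | rfl) <;> decide

theorem clm5 : ∀ x ∈ ({-5, -14, -7, -20, -10} : Set ℤ), Cz x ∈ ({-5, -14, -7, -20, -10} : Set ℤ) := by
  rintro x (rfl | rfl | rfl | rfl | rfl) <;> decide

theorem to_one {a : ℤ} (h : a ∈ ({1, 2, 4, 8, 16} : Set ℤ)) : Hits a 1 := by
  rcases h with rfl | rfl | rfl | rfl | rfl
  · exact ⟨0, rfl⟩
  · exact ⟨1, by decide⟩
  · exact ⟨2, by decide⟩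
  · exact ⟨3, by decide⟩
  · exact ⟨4, by decide⟩

theorem from_16 {a : ℤ} (h : a ∈ ({1, 2, 4, 8, 16} : Set ℤ)) : Hits 16 a := by
  rcases h with rfl | rfl | rfl | rfl | rfl
  · exact ⟨4, by decide⟩
  · exact ⟨3, by decide⟩
  · exact ⟨2, by decide⟩
  · exact ⟨1, by decide⟩
  · exact ⟨0, rfl⟩

/-- a number that reaches `1` passes through `5` or `32` -/
theorem last_step {a : ℤ} (h0 : 0 < a) (h : Hits a 1) (h16 : a ∉ ({1, 2, 4, 8, 16} : Set ℤ)) : Hits a 5 ∨ Hits a 32 := by
  obtain ⟨z, hz, hz1, hz2⟩ := Hits.last h16 (by simp) h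
  have hz0 : 0 < z := by
    have := side_hits (s := 1) (Or.inl rfl) (by simpa using h0) hz
    simpa using this
  have : z = 5 ∨ z = 32 := by
    unfold Cz at hz2
    simp only [Set.mem_insert_iff, Set.mem_singleton_iff] at hz1 hz2
    split_ifs at hz2 <;> omega
  rcases this with rfl | rfl
  · exact Or.inl hz
  · exact Or.inr hz

theorem five_32 : ¬ Hits 5 32 := fun h => by
  have := Hits.mem cl5 (by simp) h
  simp at this

theorem f32_five : ¬ Hits 32 5 := fun h => by
  have := Hits.mem cl32 (by simp) h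
  simp at this

/-- an incomparable integer -/
theorem incomparable_pos {a : ℤ} (h0 : 0 < a) (h16 : a ∉ ({1, 2, 4, 8, 16} : Set ℤ)) :
    ∃ b : ℤ, 0 < b ∧ ¬ (3 : ℤ) ∣ b ∧ ¬ Hits b a ∧ ¬ Hits a b := by
  by_cases h1 : Hits a 1
  · rcases last_step h0 h1 h16 with h | h
    · refine ⟨32, by norm_num, by norm_num, fun g => ?_, fun g => ?_⟩
      · have h2 := Hits.mem cl32 (by simp) g
        rcases h2 with rfl | h2
        · exact f32_five h
        · exact h16 h2
      · rcases Hits.comp h g with h2 | h2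
        · exact five_32 h2
        · exact f32_five h2
    · refine ⟨5, by norm_num, by norm_num, fun g => ?_, fun g => ?_⟩
      · have h2 := Hits.mem cl5 (by simp) g
        rcases h2 with rfl | h2
        · exact five_32 h
        · exact h16 h2
      · rcases Hits.comp h g with h2 | h2
        · exact f32_five h2
        · exact five_32 h2
  · refine ⟨1, by norm_num, by norm_num, fun g => h1 ?_, h1⟩
    have h2 := Hits.mem cl4 (by simp) g
    apply to_one
    rcases h2 with rfl | rfl | rfl <;> simp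

theorem incomparable_neg {a : ℤ} (h0 : a < 0) : ∃ b : ℤ, b < 0 ∧ ¬ (3 : ℤ) ∣ b ∧ ¬ Hits b a ∧ ¬ Hits a b := by
  by_cases h1 : Hits a (-1)
  · refine ⟨-5, by norm_num, by norm_num, fun g => ?_, fun g => ?_⟩
    · have h2 := Hits.mem clm5 (by simp) g
      have h3 := Hits.mem clm5 h2 h1
      simp at h3
    · rcases Hits.comp h1 g with h2 | h2
      · have h3 := Hits.mem clm1 (by simp) h2
        simp at h3
      · have h3 := Hits.mem clm5 (by simp) h2
        simp at h3
  · refine ⟨-1, by norm_num, by norm_num, fun g => h1 ?_, h1⟩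
    have h2 := Hits.mem clm1 (by simp) g
    rcases h2 with rfl | rfl
    · exact Hits.refl _
    · exact ⟨1, by decide⟩

/-- a positive integer prime to `3` that does not reach `1` -/
theorem not_collatz (h : ¬ Collatz) : ∃ b : ℤ, 0 < b ∧ ¬ (3 : ℤ) ∣ b ∧ ¬ Hits b 1 := by
  unfold Collatz at h
  push Not at h
  obtain ⟨n, hn, hn1⟩ := h
  obtain ⟨j, m, hm, e⟩ := odd_part (n := n.toNat) (by omega)
  have e2 : n = 2 ^ j * (m : ℤ) := by
    have : (n.toNat : ℤ) = ((2 ^ j * m : ℕ) : ℤ) := by rw [e]
    rw [Int.toNat_of_nonneg (by omega)] at this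
    rw [this]; push_cast; ring
  have h1 : ¬ Hits (m : ℤ) 1 := fun g => by
    have h2 : Hits n (m : ℤ) := ⟨j, by rw [e2]; exact iter_two j _⟩
    obtain ⟨k, hk⟩ := h2.trans g
    exact hn1 k hk
  have e3 : Cz (m : ℤ) = 3 * m + 1 := by
    unfold Cz
    rw [if_neg (by omega)]
  refine ⟨3 * m + 1, by omega, by omega, fun g => h1 ((Hits.step _).trans ?_)⟩
  rw [e3]; exact g

theorem obvious_single {a : ℤ} (ha : a ≠ 0) : Obvious a.sign {a} ↔
    ((3 : ℤ) ∣ a ∨ (a ∈ ({1, 2, 4, 8, 16} : Set ℤ) ∧ Collatz)) := by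
  by_cases h3 : (3 : ℤ) ∣ a
  · exact ⟨fun _ => Or.inl h3, fun _ => Or.inl fun f hf _ => by rw [Finset.mem_singleton.1 hf]; exact h3⟩
  rcases lt_or_gt_of_ne ha with h0 | h0
  · rw [Int.sign_eq_neg_one_of_neg h0]
    obtain ⟨b, hb, hb3, h1, h2⟩ := incomparable_neg h0
    constructor
    · intro h
      exact absurd h (single (Or.inr rfl) (by omega) h3 (by omega) hb3 h1 h2)
    · rintro (h | ⟨h, _⟩)
      · exact absurd h h3
      · rcases h with rfl | rfl | rfl | rfl | rfl <;> omega
  · rw [Int.sign_eq_one_of_pos h0]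
    by_cases h16 : a ∈ ({1, 2, 4, 8, 16} : Set ℤ)
    · by_cases hC : Collatz
      · refine ⟨fun _ => Or.inr ⟨h16, hC⟩, fun _ => (obvious_iff 1 {a}).2 (Or.inr ⟨16, fun n hn _ hX => ?_⟩)⟩
        refine ⟨hn, a, Finset.mem_singleton_self a, ?_⟩
        rw [one_mul]
        have h5 : Hits (n : ℤ) 1 := hC n (by exact_mod_cast hn)
        have h6 : (n : ℤ) ∉ ({1, 2, 4, 8, 16} : Set ℤ) := by
          simp only [Set.mem_insert_iff, Set.mem_singleton_iff]
          omega
        refine Hits.trans ?_ (from_16 h16)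
        rcases last_step (by omega) h5 h6 with h | h
        · exact h.trans ⟨1, by decide⟩
        · exact h.trans ⟨1, by decide⟩
      · obtain ⟨b, hb, hb3, hb1⟩ := not_collatz hC
        constructor
        · intro h
          refine absurd h (single (b := b) (Or.inl rfl) (by omega) h3 (by omega) hb3 (fun g => hb1 (g.trans (to_one h16)))
            (fun g => hb1 (to_one (Hits.mem cl16 h16 g))))
        · rintro (h | ⟨_, h⟩)
          · exact absurd h h3
          · exact absurd h hC
    · obtain ⟨b, hb, hb3, h1, h2⟩ := incomparable_pos h0 h16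
      constructor
      · intro h
        exact absurd h (single (Or.inl rfl) (by omega) h3 (by omega) hb3 h1 h2)
      · rintro (h | ⟨h, _⟩)
        · exact absurd h h3
        · exact absurd h h16

/-- (1) Let `F` be a finite set of integers and `s = 1` or `s = -1`. If `Obvious s F` fails, that is, if `F` has an element of
the sign `s` which is not divisible by `3` and infinitely many positive integers prime to `3` are not in `Meets s F`, then
`Meets s F` is hard. The following are equivalent: `Obvious s F`; `Meets s F` is in `AC0`; it is decided by circuits of polynomial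
size and depth at most `a log k / log log k`, where `a < 1 / 2`; it is decided up to a proportion `1 / k ^ (1 - c)` of exceptions
by circuits of the size and depth in the definition of `Hard`.

(2) For an integer `a ≠ 0` of the sign `s`, `Obvious s {a}` holds if and only if `3` divides `a`, or `a` is `1`, `2`, `4`, `8` or `16` and
the Collatz conjecture is true. -/
theorem result :
    (∀ (F : Finset ℤ) (s : ℤ), (s = 1 ∨ s = -1) → (¬ Obvious s F → Hard (Meets s F)) ∧
      List.TFAE [Obvious s F, AC0 (Meets s F), Poly (Meets s F), Approx (Meets s F)]) ∧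
    ∀ a : ℤ, a ≠ 0 → (Obvious a.sign {a} ↔ ((3 : ℤ) ∣ a ∨ (a ∈ ({1, 2, 4, 8, 16} : Set ℤ) ∧ Collatz))) := by
  refine ⟨fun F s hs => ⟨fun h => ?_, ?_⟩, fun a ha => obvious_single ha⟩
  · rw [meets_eq]
    exact hard_of (not_obvious hs h)
  · rw [meets_eq]
    exact Inf2.tfae_of (S := ME s F) (fun h => obvious_ac0 hs h) (fun h => not_obvious hs h)

end Pool.Agent.Results.MP_e43fce_nt.PredecessorSets
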